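import Pool.Agent.helper80.EN.Spec

/-! Row EN:FIT: Fitting's theorem. -/

set_option autoImplicit false

namespace Pool.Agent.helper80.EN

open Subgroup

universe u

section FIT

variable {G : Type u} [Group G]

/-- the series `⊤, M, [M, M], ...` -/
def fitA (M : Subgroup G) : ℕ → Subgroup G
  | 0 => ⊤
  | a + 1 => M.lowerCentralSeries a

lemma fitA_normal (M : Subgroup G) (hM : M.Normal) : ∀ a, (fitA M a).Normal := by
  have h : ∀ a, (M.lowerCentralSeries a).Normal := by
    intro a
    induction a with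
    | zero => exact hM
    | succ a ih =>
      rw [Subgroup.lowerCentralSeries_succ]
      exact Subgroup.commutator_normal _ _
  intro a
  cases a with
  | zero => exact (inferInstance : (⊤ : Subgroup G).Normal)
  | succ a => exact h a

lemma fitA_comm (M : Subgroup G) (hM : M.Normal) (a : ℕ) (x g : G) (hx : x ∈ fitA M a)
    (hg : g ∈ M) : x * g * x⁻¹ * g⁻¹ ∈ fitA M (a + 1) := by
  cases a with
  | zero => exact M.mul_mem (hM.conj_mem g hg x) (M.inv_mem hg)
  | succ a => exact Subgroup.commutator_mem_commutator hx hg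

lemma fitA_bot (M : Subgroup G) (c : ℕ) (hc : M.lowerCentralSeries c = ⊥) (a : ℕ)
    (ha : c + 1 ≤ a) : fitA M a = ⊥ := by
  cases a with
  | zero => omega
  | succ a =>
    rw [eq_bot_iff, ← hc]
    exact M.lowerCentralSeries_antitone (by omega)

/-- the terms of the central series -/
def fitD (M N : Subgroup G) (n : ℕ) : Subgroup G :=
  ⨆ p : {p : ℕ × ℕ // p.1 + p.2 = n}, fitA M p.1.1 ⊓ fitA N p.1.2

lemma fitD_normal (M N : Subgroup G) (hM : M.Normal) (hN : N.Normal) (n : ℕ) :
    (fitD M N n).Normal := by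
  unfold fitD
  have : ∀ p : {p : ℕ × ℕ // p.1 + p.2 = n}, (fitA M p.1.1 ⊓ fitA N p.1.2).Normal := by
    intro p
    have h1 := fitA_normal M hM p.1.1
    have h2 := fitA_normal N hN p.1.2
    infer_instance
  exact Subgroup.iSup_normal _

lemma le_fitD (M N : Subgroup G) (a b n : ℕ) (h : a + b = n) :
    fitA M a ⊓ fitA N b ≤ fitD M N n :=
  le_iSup (fun p : {p : ℕ × ℕ // p.1 + p.2 = n} => fitA M p.1.1 ⊓ fitA N p.1.2) ⟨(a, b), h⟩

/-- commutators with a fixed element modulo a normal subgroup -/
def fitC (K : Subgroup G) [K.Normal] (x : G) : Subgroup G :=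
  (Subgroup.centralizer {(QuotientGroup.mk' K x : G ⧸ K)}).comap (QuotientGroup.mk' K)

lemma mem_fitC (K : Subgroup G) [K.Normal] (x g : G) :
    g ∈ fitC K x ↔ x * g * x⁻¹ * g⁻¹ ∈ K := by
  unfold fitC
  rw [Subgroup.mem_comap, Subgroup.mem_centralizer_singleton_iff, ← QuotientGroup.eq_one_iff]
  constructor
  · intro h
    have h' : (QuotientGroup.mk' K g) * (QuotientGroup.mk' K x) =
      (QuotientGroup.mk' K x) * (QuotientGroup.mk' K g) := h
    change QuotientGroup.mk' K (x * g * x⁻¹ * g⁻¹) = 1
    rw [map_mul, map_mul, map_mul, map_inv, map_inv, ← h']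
    group
  · intro h
    change QuotientGroup.mk' K (x * g * x⁻¹ * g⁻¹) = 1 at h
    rw [map_mul, map_mul, map_mul, map_inv, map_inv, mul_inv_eq_one, mul_inv_eq_iff_eq_mul] at h
    exact h.symm

theorem FIT : FIT_stmt.{u} := by
  intro G _ M N hM hN hMn hNn hsup
  obtain ⟨c, hc⟩ := (isNilpotent_iff_lowerCentralSeries M).1 hMn
  obtain ⟨d, hd⟩ := (isNilpotent_iff_lowerCentralSeries N).1 hNn
  rw [Subgroup.nilpotent_iff_finite_descending_central_series]
  refine ⟨c + d + 2, fitD M N, ⟨?_, ?_⟩, ?_⟩
  · rw [eq_top_iff]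
    refine le_trans ?_ (le_fitD M N 0 0 0 rfl)
    exact le_inf le_rfl le_rfl
  · intro x n hx g
    have hK := fitD_normal M N hM hN (n + 1)
    -- the elements that are central modulo `D (n+1)`
    have key : fitD M N n ≤
        (Subgroup.center (G ⧸ fitD M N (n + 1))).comap (QuotientGroup.mk' (fitD M N (n + 1))) := by
      unfold fitD
      apply iSup_le
      rintro ⟨⟨a, b⟩, hab⟩ y hy
      have hya : y ∈ fitA M a := (Subgroup.mem_inf.1 hy).1
      have hyb : y ∈ fitA N b := (Subgroup.mem_inf.1 hy).2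
      have hab' : a + b = n := hab
      change y ∈ (Subgroup.center (G ⧸ fitD M N (n + 1))).comap
        (QuotientGroup.mk' (fitD M N (n + 1)))
      have htop : fitC (fitD M N (n + 1)) y = ⊤ := by
        rw [eq_top_iff, ← hsup]
        apply sup_le
        · intro g hg
          rw [mem_fitC]
          apply le_fitD M N (a + 1) b (n + 1) (by omega)
          refine Subgroup.mem_inf.2 ⟨fitA_comm M hM a y g hya hg, ?_⟩
          have h1 := (fitA_normal N hN b).conj_mem _ ((fitA N b).inv_mem hyb) g
          have h2 := (fitA N b).mul_mem hyb h1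
          have h3 : y * g * y⁻¹ * g⁻¹ = y * (g * y⁻¹ * g⁻¹) := by group
          rw [h3]
          exact h2
        · intro g hg
          rw [mem_fitC]
          apply le_fitD M N a (b + 1) (n + 1) (by omega)
          refine Subgroup.mem_inf.2 ⟨?_, fitA_comm N hN b y g hyb hg⟩
          have h1 := (fitA_normal M hM a).conj_mem _ ((fitA M a).inv_mem hya) g
          have h2 := (fitA M a).mul_mem hya h1
          have h3 : y * g * y⁻¹ * g⁻¹ = y * (g * y⁻¹ * g⁻¹) := by group
          rw [h3]
          exact h2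
      rw [Subgroup.mem_comap, Subgroup.mem_center_iff]
      intro z
      obtain ⟨g, rfl⟩ := QuotientGroup.mk'_surjective (fitD M N (n + 1)) z
      have hg : g ∈ fitC (fitD M N (n + 1)) y := by rw [htop]; exact Subgroup.mem_top g
      unfold fitC at hg
      rw [Subgroup.mem_comap, Subgroup.mem_centralizer_singleton_iff] at hg
      exact hg
    have h1 := key hx
    rw [Subgroup.mem_comap, Subgroup.mem_center_iff] at h1
    have h2 := h1 (QuotientGroup.mk' (fitD M N (n + 1)) g)
    rw [← QuotientGroup.eq_one_iff]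
    change QuotientGroup.mk' (fitD M N (n + 1)) (x * g * x⁻¹ * g⁻¹) = 1
    rw [map_mul, map_mul, map_mul, map_inv, map_inv, ← h2]
    group
  · rw [eq_bot_iff]
    unfold fitD
    apply iSup_le
    rintro ⟨⟨a, b⟩, hab⟩
    have hab' : a + b = c + d + 2 := hab
    change fitA M a ⊓ fitA N b ≤ ⊥
    by_cases ha : c + 1 ≤ a
    · rw [fitA_bot M c hc a ha]
      exact inf_le_left
    · rw [fitA_bot N d hd b (by omega)]
      exact inf_le_right

end FIT

end Pool.Agent.helper80.EN
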